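import Pool.Agent.Q255.SG.KL3

/-!
# Katz's conjecture on the Kloosterman angles and the moduli of `L`-functions on the edge

For `a ≠ 0` let `θ_p(a)` be the angle of the Kloosterman sum `S(a,1;p)` and, for `k ≥ 0`,
`L_k(s) = ∏_{p ∤ a} ∏_{j ≤ k} (1 - e^{i(k-2j)θ_p(a)} p^{-s})⁻¹`, `Re s > 1`.  Nothing is known on the
continuation of these functions for `k ≥ 1`.  They have boundary values `l_k(t)`, different from zero,
in all angles at the points `1 + it` outside a set of Hausdorff dimension zero, and `log |l_k|` is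
locally integrable.  We prove, without hypotheses, that Katz's conjecture for `a` (the law of Sato
and Tate in natural density) is equivalent to
`x ∫ log |l_k(t)| φ(t) e^{ixt} dt → 0` as `x → ∞`, for all `k ≥ 1` and all smooth `φ` with compact
support; and that if `L_1, ..., L_[λ]` are continued, without zeros and poles, to the segment `|t| < λ`
of the edge only, then the discrepancy of the angles is at most `C log λ / λ + o(1)`.  For the sign of
`S(a,1;p)` two functions are enough: if `L_1` and `L_2` are continued in this way to `|t| < λ`, both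
signs have lower density at least `1/8 - C/λ`.
-/

set_option autoImplicit false

namespace Pool.Agent.Results.MP_6ea630_nt.EdgeCriterion

open Filter Topology MeasureTheory

section Definitions

/-- The Kloosterman sum `S(a,1;p)` (the formula of the frozen statement `S17361`). -/
noncomputable def kloosterman (a : ℤ) (p : ℕ) : ℝ :=
  ∑ x ∈ Finset.Ico 1 p, Real.cos (2 * Real.pi *
    ((((a : ZMod p) * (x : ZMod p) + (x : ZMod p)⁻¹).val : ℕ) : ℝ) / (p : ℝ))

/-- The angle `θ_p(a)`. -/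
noncomputable def klAngle (a : ℤ) (p : ℕ) : ℝ :=
  Real.arccos (kloosterman a p / (2 * Real.sqrt (p : ℝ)))

/-- `L_k(z) = ∏_{p ∤ a} ∏_{j ≤ k} (1 - e^{i(k-2j)θ_p(a)} p^{-z})⁻¹`. -/
noncomputable def LFunction (a : ℤ) (k : ℕ) (z : ℂ) : ℂ :=
  ∏' p : Nat.Primes, if Nat.Coprime (p : ℕ) a.natAbs then
    (∏ j : Fin (k + 1), (1 - Complex.exp (((((k : ℝ) - 2 * ((j : ℕ) : ℝ)) * klAngle a p : ℝ) : ℂ) *
      Complex.I) * ((p : ℕ) : ℂ) ^ (-z)))⁻¹ else 1

/-- The point `1 + it`. -/
noncomputable def edgePoint (t : ℝ) : ℂ := 1 + (t : ℂ) * Complex.I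

/-- The angle `|z - (1 + it)| ≤ c (Re z - 1)` in the half-plane `Re z > 1`. -/
def angle (t c : ℝ) : Set ℂ := {z : ℂ | 1 < z.re ∧ ‖z - edgePoint t‖ ≤ c * (z.re - 1)}

/-- `l` is the boundary function of `L` on the edge `Re z = 1`: outside a set of Hausdorff dimension
`0` its values are not zero, and they are the limits of `L` in every angle. -/
def IsBoundaryFunction (L : ℂ → ℂ) (l : ℝ → ℂ) : Prop :=
  ∃ T : Set ℝ, dimH T = 0 ∧ ∀ t : ℝ, t ∉ T → l t ≠ 0 ∧
    ∀ c : ℝ, Tendsto L (𝓝[angle t c] (edgePoint t)) (𝓝 (l t))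

/-- Smooth functions with compact support. -/
def IsTest (φ : ℝ → ℂ) : Prop := ContDiff ℝ (⊤ : ℕ∞) φ ∧ HasCompactSupport φ

/-- `∫ log |l(t)| φ(t) e^{ixt} dt`. -/
noncomputable def edgeIntegral (l φ : ℝ → ℂ) (x : ℝ) : ℂ :=
  ∫ t : ℝ, ((Real.log ‖l t‖ : ℝ) : ℂ) * (φ t * Complex.exp (Complex.I * x * t))

/-- The asymptotic formula `x ∫ log |l(t)| φ(t) e^{ixt} dt → π c φ(0)` as `x → ∞`, for all test
functions `φ` with support in the segment `|t| < λ`. -/
def EdgeAsymptoticOn (lam : ℝ) (l : ℝ → ℂ) (c : ℂ) : Prop := ∀ φ : ℝ → ℂ, IsTest φ →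
  (∀ t ∈ tsupport φ, |t| < lam) →
  Tendsto (fun x : ℝ => (x : ℂ) * edgeIntegral l φ x) atTop (𝓝 (Real.pi * c * φ 0))

/-- The asymptotic formula for all test functions `φ`. -/
def EdgeAsymptotic (l : ℝ → ℂ) (c : ℂ) : Prop := ∀ φ : ℝ → ℂ, IsTest φ →
  Tendsto (fun x : ℝ => (x : ℂ) * edgeIntegral l φ x) atTop (𝓝 (Real.pi * c * φ 0))

/-- `L` is continued to a neighbourhood of every point `1 + it`, `|t| < λ`, and `(z - 1)^m L(z)` is
holomorphic and not zero there: no zeros and poles except for a pole of order `m` at `1`. -/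
def ContinuesOnSegment (L : ℂ → ℂ) (m : ℤ) (lam : ℝ) : Prop := ∀ t : ℝ, |t| < lam →
  ∃ Φ : ℂ → ℂ, AnalyticAt ℂ Φ (edgePoint t) ∧ Φ (edgePoint t) ≠ 0 ∧
    ∀ᶠ z in 𝓝 (edgePoint t), 1 < z.re → L z * (z - 1) ^ m = Φ z

/-- The share, among the primes `p ≤ N`, of those with `p ∤ a` and `P p`. -/
noncomputable def share (a : ℤ) (P : ℕ → Prop) (N : ℕ) : ℝ :=
  (({p : ℕ | p ≤ N ∧ p.Prime ∧ Nat.Coprime p a.natAbs ∧ P p} : Set ℕ).ncard : ℝ) /
    (Nat.primeCounting N : ℝ)

/-- The mean `π(N)⁻¹ ∑_{p ≤ N, p ∤ a} sin((k+1)θ_p(a)) / sin θ_p(a)` of the traces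
`∑_{j ≤ k} cos((k-2j)θ_p(a))` of the symmetric powers. -/
noncomputable def traceMean (a : ℤ) (k N : ℕ) : ℝ :=
  (∑ᶠ p ∈ {p : ℕ | p ≤ N ∧ p.Prime ∧ Nat.Coprime p a.natAbs},
    ∑ j ∈ Finset.range (k + 1), Real.cos (((k : ℝ) - 2 * j) * klAngle a p)) /
    (Nat.primeCounting N : ℝ)

/-- The measure of Sato and Tate of `[α, β]`. -/
noncomputable def satoTate (α β : ℝ) : ℝ := (2 / Real.pi) * ∫ u in α..β, Real.sin u ^ 2

/-- Katz's conjecture for `a` (Q1 and `S17361` are the conjunction over all `a ≠ 0`). -/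
def Katz (a : ℤ) : Prop := ∀ α β : ℝ, 0 ≤ α → α ≤ β → β ≤ Real.pi →
  Tendsto (share a fun p => α ≤ klAngle a p ∧ klAngle a p ≤ β) atTop (𝓝 (satoTate α β))

end Definitions

/-! ## Translation -/

section Translation

open Pool.Agent.Q255.SG Pool.Agent.Q255.SG.KL

/-- the primes dividing `a` -/
def bad (a : ℤ) : Set ℕ := {p : ℕ | p.Prime ∧ ¬ Nat.Coprime p a.natAbs}

theorem bad_finite {a : ℤ} (ha : a ≠ 0) : (bad a).Finite := by
  have h : 0 < a.natAbs := Int.natAbs_pos.2 ha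
  refine (Set.finite_le_nat a.natAbs).subset fun p hp => ?_
  exact Nat.le_of_dvd h ((Nat.Prime.dvd_iff_not_coprime hp.1).2 hp.2)

theorem klAngle_mem (a : ℤ) (p : ℕ) : 0 ≤ klAngle a p ∧ klAngle a p ≤ Real.pi :=
  ⟨Real.arccos_nonneg _, Real.arccos_le_pi _⟩

theorem eq0_eq (t : ℝ) : Pool.Agent.Q255.SG.eq0 0 t = edgePoint t := by
  unfold Pool.Agent.Q255.SG.eq0 edgePoint
  norm_num

theorem bf_iff {L : ℂ → ℂ} {l : ℝ → ℂ} :
    IsBoundaryFunction L l ↔ Pool.Agent.Q255.SG.AngBd 0 L l := by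
  unfold IsBoundaryFunction Pool.Agent.Q255.SG.AngBd angle
  simp only [eq0_eq, show (0 : ℝ) / 2 + 1 = 1 by norm_num]

theorem cont_iff {L : ℂ → ℂ} {m : ℤ} {lam : ℝ} : ContinuesOnSegment L m lam ↔
    ∀ t0 : ℝ, |t0| < lam → ∃ Φ : ℂ → ℂ, AnalyticAt ℂ Φ (Pool.Agent.Q255.SG.eq0 0 t0) ∧
      Φ (Pool.Agent.Q255.SG.eq0 0 t0) ≠ 0 ∧ ∀ᶠ s in 𝓝 (Pool.Agent.Q255.SG.eq0 0 t0),
        (0 : ℝ) / 2 + 1 < s.re → L s * (s - Pool.Agent.Q255.SG.eq0 0 0) ^ m = Φ s := by
  have e0 : edgePoint 0 = 1 := by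
    unfold edgePoint
    simp
  unfold ContinuesOnSegment
  simp only [eq0_eq, e0, show (0 : ℝ) / 2 + 1 = 1 by norm_num]

theorem L_eq (a : ℤ) (k : ℕ) (s : ℂ) :
    LFunction a k s = LF (aS (bad a) (klAngle a) k) 0 s := by
  rw [LF_zero]
  unfold LFunction
  refine tprod_congr fun p => ?_
  by_cases h : Nat.Coprime (p : ℕ) a.natAbs
  · have h' : (p : ℕ) ∉ bad a := fun g => g.2 h
    rw [if_pos h]
    congr 1
    refine Finset.prod_congr rfl fun j _ => ?_
    unfold aS
    rw [if_neg h']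
  · have h' : (p : ℕ) ∈ bad a := ⟨p.2, h⟩
    rw [if_neg h]
    unfold aS
    simp [h']

theorem BL_of {a : ℤ} {k : ℕ} {l : ℝ → ℂ} (h : IsBoundaryFunction (LFunction a k) l) :
    BL (bad a) (klAngle a) k l := by
  obtain ⟨T, hT, hL⟩ := Lim_of_angBd (aS_bd (bad a) (klAngle a) k) (fun s _ => L_eq a k s)
    (bf_iff.1 h)
  exact ⟨T, hT, hL⟩

theorem PS_set (a : ℤ) (N : ℕ) : {p : ℕ | p ≤ N ∧ p.Prime ∧ Nat.Coprime p a.natAbs} =
    ((PS (bad a) N : Finset ℕ) : Set ℕ) := by
  ext p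
  rw [Finset.mem_coe, mem_PS]
  simp only [Set.mem_setOf_eq, bad, not_and, not_not]
  constructor
  · rintro ⟨h1, h2, h3⟩
    exact ⟨⟨h1, h2⟩, fun _ => h3⟩
  · rintro ⟨⟨h1, h2⟩, h3⟩
    exact ⟨h1, h2, h3 h2⟩

theorem share_eq (a : ℤ) (P : ℕ → Prop) [DecidablePred P] (N : ℕ) :
    share a P N = (((PS (bad a) N).filter P).card : ℝ) / (Nat.primeCounting N : ℝ) := by
  unfold share
  have h1 : {p : ℕ | p ≤ N ∧ p.Prime ∧ Nat.Coprime p a.natAbs ∧ P p} =
      (((PS (bad a) N).filter P : Finset ℕ) : Set ℕ) := by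
    rw [Finset.coe_filter]
    ext p
    have h2 := Set.ext_iff.1 (PS_set a N) p
    simp only [Set.mem_setOf_eq, Finset.mem_coe] at h2 ⊢
    rw [← h2]
    tauto
  rw [h1, Set.ncard_coe_finset]

theorem share_angle (a : ℤ) (α β : ℝ) (N : ℕ) :
    share a (fun p => α ≤ klAngle a p ∧ klAngle a p ≤ β) N =
      shr (bad a) (klAngle a) α β N := by
  classical
  rw [share_eq]
  unfold shr
  congr!

theorem mean_eq (a : ℤ) (k N : ℕ) : traceMean a k N = mn (bad a) (klAngle a) (UK k) N := by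
  unfold traceMean mn
  rw [PS_set, finsum_mem_coe_finset]
  rfl

theorem cos_arccos_sign (u : ℝ) : (0 < Real.cos (Real.arccos u) ↔ 0 < u) ∧
    (Real.cos (Real.arccos u) < 0 ↔ u < 0) := by
  rcases le_or_gt u (-1) with h | h
  · rw [Real.arccos_of_le_neg_one h, Real.cos_pi]
    constructor <;> constructor <;> intro _ <;> linarith
  · rcases le_or_gt 1 u with h' | h'
    · rw [Real.arccos_of_one_le h', Real.cos_zero]
      constructor <;> constructor <;> intro _ <;> linarith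
    · rw [Real.cos_arccos h.le h'.le]
      exact ⟨Iff.rfl, Iff.rfl⟩

/-- the sign of the Kloosterman sum is the sign of the cosine of the angle -/
theorem cos_pos_iff {a : ℤ} {p : ℕ} (hp : p.Prime) :
    0 < Real.cos (klAngle a p) ↔ 0 < kloosterman a p := by
  have h0 : (0 : ℝ) < 2 * Real.sqrt p := by
    have : (0 : ℝ) < p := by exact_mod_cast hp.pos
    positivity
  unfold klAngle
  rw [(cos_arccos_sign _).1, div_pos_iff_of_pos_right h0]

theorem cos_neg_iff {a : ℤ} {p : ℕ} (hp : p.Prime) :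
    Real.cos (klAngle a p) < 0 ↔ kloosterman a p < 0 := by
  have h0 : (0 : ℝ) < 2 * Real.sqrt p := by
    have : (0 : ℝ) < p := by exact_mod_cast hp.pos
    positivity
  unfold klAngle
  rw [(cos_arccos_sign _).2, div_neg_iff]
  constructor
  · rintro (⟨_, h⟩ | ⟨h, _⟩)
    · linarith
    · exact h
  · intro h
    exact Or.inr ⟨h, h0⟩

theorem share_pos (a : ℤ) (N : ℕ) :
    share a (fun p => 0 < kloosterman a p) N = shp (bad a) (klAngle a) N := by
  classical
  rw [share_eq]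
  unfold shp
  congr 2
  refine congrArg Finset.card (Finset.filter_congr fun p hp => ?_)
  exact (cos_pos_iff (mem_PS.1 hp).1.2).symm

theorem share_neg (a : ℤ) (N : ℕ) :
    share a (fun p => kloosterman a p < 0) N = shn (bad a) (klAngle a) N := by
  classical
  rw [share_eq]
  unfold shn
  congr 2
  refine congrArg Finset.card (Finset.filter_congr fun p hp => ?_)
  exact (cos_neg_iff (mem_PS.1 hp).1.2).symm

end Translation

/-- **Katz's conjecture and the moduli on the edge.**  There is an absolute constant `C` such that for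
every integer `a ≠ 0`:

1. every `L_k` has a boundary function `l_k` on `Re z = 1`, and `log |l_k|` is integrable against test
functions; if `L_k` is continued to the segment `|t| < λ` of the edge, with a pole of order `m` at `1`
and no other zeros and poles, then `x ∫ log |l_k(t)| φ(t) e^{ixt} dt → π m φ(0)` for all test functions
`φ` with support in `|t| < λ`;
2. for every `k` and `c`, the mean of `sin((k+1)θ_p)/sin θ_p` over the primes `p ≤ N` tends to `c` if
and only if `x ∫ log |l_k(t)| φ(t) e^{ixt} dt → π c φ(0)` for all test functions `φ`;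
3. Katz's conjecture is true for `a` if and only if this integral is `o(1/x)` for all `k ≥ 1` and all
test functions `φ`;
4. if this is known only for `1 ≤ k ≤ λ` and the `φ` with support in `|t| < λ` (for example if
`L_1, ..., L_[λ]` are continued, without zeros and poles, to this segment), then for every `ε > 0` and
all large `N` the share of the primes `p ≤ N` with `θ_p(a)` in `[α, β]` is at distance at most
`C log λ / λ + ε` from the measure of Sato and Tate of `[α, β]`, for all intervals at the same time;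
5. if it is known only for `k = 1, 2` and the `φ` with support in `|t| < λ`, then the lower densities of
the primes with `S(a,1;p) > 0` and of those with `S(a,1;p) < 0` are at least `1/8 - C/λ`. -/
theorem result : ∃ C : ℝ, 0 < C ∧ ∀ a : ℤ, a ≠ 0 →
    (∀ k : ℕ, (∃ l, IsBoundaryFunction (LFunction a k) l) ∧
      ∀ l, IsBoundaryFunction (LFunction a k) l →
        (∀ φ : ℝ → ℂ, IsTest φ → ∀ x : ℝ, Integrable fun t : ℝ =>
          ((Real.log ‖l t‖ : ℝ) : ℂ) * (φ t * Complex.exp (Complex.I * x * t))) ∧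
        (∀ (m : ℤ) (lam : ℝ), ContinuesOnSegment (LFunction a k) m lam →
          EdgeAsymptoticOn lam l m) ∧
        ∀ c : ℝ, Tendsto (traceMean a k) atTop (𝓝 c) ↔ EdgeAsymptotic l c) ∧
    ∀ l : ℕ → ℝ → ℂ, (∀ k, IsBoundaryFunction (LFunction a k) (l k)) →
      (Katz a ↔ ∀ k : ℕ, 1 ≤ k → EdgeAsymptotic (l k) 0) ∧
      (∀ lam : ℝ, 2 ≤ lam → (∀ k : ℕ, 1 ≤ k → (k : ℝ) ≤ lam → EdgeAsymptoticOn lam (l k) 0) →
        ∀ ε : ℝ, 0 < ε → ∀ᶠ N : ℕ in atTop, ∀ α β : ℝ, 0 ≤ α → α ≤ β → β ≤ Real.pi →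
          |share a (fun p => α ≤ klAngle a p ∧ klAngle a p ≤ β) N - satoTate α β| ≤
            C * Real.log lam / lam + ε) ∧
      ∀ lam : ℝ, 0 < lam → EdgeAsymptoticOn lam (l 1) 0 → EdgeAsymptoticOn lam (l 2) 0 →
        ∀ ε : ℝ, 0 < ε → ∀ᶠ N : ℕ in atTop,
          1 / 8 - C / lam - ε ≤ share a (fun p => 0 < kloosterman a p) N ∧
          1 / 8 - C / lam - ε ≤ share a (fun p => kloosterman a p < 0) N := by
  obtain ⟨C1, hC1, hdisc⟩ := Pool.Agent.Q255.SG.KL.disc
  obtain ⟨C2, hC2, hsign⟩ := Pool.Agent.Q255.SG.KL.signs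
  refine ⟨C1 + C2, by linarith, fun a ha => ⟨fun k => ⟨?_, fun l hl => ⟨fun φ hφ x => ?_,
    fun m lam hcont φ hφ hs => ?_, fun c => ?_⟩⟩, fun l hl => ⟨?_, fun lam hlam hE ε hε => ?_,
    fun lam hlam h1 h2 ε hε => ?_⟩⟩⟩
  · obtain ⟨l, hl⟩ := Pool.Agent.Q255.SG.angBd_exists
      (Pool.Agent.Q255.SG.KL.aS_bd (bad a) (klAngle a) k) (L := LFunction a k)
      (fun s _ => L_eq a k s)
    exact ⟨l, bf_iff.2 hl⟩
  · obtain ⟨T, hT, hL⟩ := BL_of hl
    exact (Pool.Agent.Q255.SG.II_tendsto _ hT hL hφ x).1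
  · exact Pool.Agent.Q255.SG.edge_of_loc
      (Pool.Agent.Q255.SG.loc_of_cont (bf_iff.1 hl) (cont_iff.1 hcont)) hφ hs
  · have h1 := Pool.Agent.Q255.SG.KL.tauber_aS (BL_of hl) (c : ℂ)
    have h2 : Tendsto (traceMean a k) atTop (𝓝 c) ↔ Tendsto
        (fun N => ((Pool.Agent.Q255.SG.KL.mn (bad a) (klAngle a)
          (Pool.Agent.Q255.SG.KL.UK k) N : ℝ) : ℂ)) atTop (𝓝 (c : ℂ)) := by
      have e1 : traceMean a k = Pool.Agent.Q255.SG.KL.mn (bad a) (klAngle a)
          (Pool.Agent.Q255.SG.KL.UK k) := by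
        funext N
        exact mean_eq a k N
      rw [e1]
      constructor
      · intro h
        exact (Complex.continuous_ofReal.tendsto _).comp h
      · intro h
        have := (Complex.continuous_re.tendsto _).comp h
        exact this
    rw [h2, h1]
    rfl
  · have h1 := Pool.Agent.Q255.SG.KL.st_iff (bad_finite ha) (klAngle_mem a)
      (fun k => BL_of (hl k))
    have h2 : Katz a ↔ (∀ α β : ℝ, 0 ≤ α → α ≤ β → β ≤ Real.pi →
        Tendsto (Pool.Agent.Q255.SG.KL.shr (bad a) (klAngle a) α β) atTop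
          (𝓝 (Pool.Agent.Q255.SG.KL.stm α β))) := by
      unfold Katz
      have e1 : ∀ α β : ℝ, share a (fun p => α ≤ klAngle a p ∧ klAngle a p ≤ β) =
          Pool.Agent.Q255.SG.KL.shr (bad a) (klAngle a) α β := fun α β => by
        funext N
        exact share_angle a α β N
      simp only [e1]
      rfl
    rw [h2, h1]
    rfl
  · have h1 := hdisc (bad a) (bad_finite ha) (klAngle a) (klAngle_mem a) l
      (fun k => BL_of (hl k)) lam hlam hE ε hε
    filter_upwards [h1] with N hN α β b1 b2 b3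
    rw [share_angle]
    refine (hN α β b1 b2 b3).trans ?_
    have hlog : 0 ≤ Real.log lam := Real.log_nonneg (by linarith)
    have : C1 * Real.log lam / lam ≤ (C1 + C2) * Real.log lam / lam := by
      gcongr
      linarith
    linarith
  · have h3 := hsign (bad a) (bad_finite ha) (klAngle a) (l 1) (l 2) (BL_of (hl 1))
      (BL_of (hl 2)) lam hlam h1 h2 ε hε
    filter_upwards [h3] with N hN
    rw [share_pos, share_neg]
    have : C2 / lam ≤ (C1 + C2) / lam := by
      gcongr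
      linarith
    constructor <;> linarith [hN.1, hN.2]

end Pool.Agent.Results.MP_6ea630_nt.EdgeCriterion
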