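import Pool.Agent.Q282.LT.KlLaw

/-!
# Kloosterman angles over the primes: the first two Weyl sums are asymptotically independent Gaussian variables

Let `θ_p(a)` be the angle of the Kloosterman sum, `S(a, 1; p) = 2 p ^ (1 / 2) cos θ_p(a)` (for all integers `a`; `S(a, 1; p) = -1` if
`p` divides `a`). By the conjecture of Katz the Weyl sums `∑_{p ≤ x} U_k(cos θ_p(a))`,
`U_k(cos θ) = sin ((k + 1) θ) / sin θ`, `k ≥ 1`, are `o(π(x))` for every `a ≠ 0`. It is proved, without any hypothesis, that for random
integers `a` in any interval of length at least `C x ^ K` the first two Weyl sums have square-root size with the exact Gaussian law: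
for any weights `u(p), v(p) ∈ [-1, 1]` the distribution function of
`∑_{p ≤ x} (u(p) U_1(cos θ_p(a)) + v(p) U_2(cos θ_p(a)))` divided by the square root of `V = ∑_{p ≤ x} (u(p) ^ 2 + v(p) ^ 2)`
differs everywhere by at most `ε` from the normal distribution function, as soon as `V` exceeds a constant. Constant weights show that
the two Weyl sums, divided by `π(x) ^ (1 / 2)`, converge to independent standard normal variables (by the principle of Cramér and Wold),
weights that are constant on intervals show that they behave like two independent Brownian motions in the time `π(x)`, and weights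
supported in short intervals or in arbitrary sets of primes give the same law there. The constants depend on `ε` only. So for almost all
integers `a` of every such interval the first two Weyl sums have square-root cancellation, and nothing better is true.

Proof. Weil's bound `|S(a, 1; p)| ≤ 2 p ^ (1 / 2)` (library), the first four moments of `S(a, 1; p)` over the residues `a` modulo `p`,
which are `0, p ^ 2 - p, O(p ^ 2), 2 p ^ 3 + O(p ^ 2)` by counting points, a comparison of all moments of sums of independent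
variables with the normal moments, and Esseen's inequality.
-/

set_option autoImplicit false

namespace Pool.Agent.Results.MP_6ea630_nt.GaussianWeylSums

open Finset

/-- The Kloosterman sum `S(a, 1; p)`. -/
noncomputable def kloosterman (a : ℤ) (p : ℕ) : ℝ :=
  ∑ x ∈ Ico 1 p, Real.cos (2 * Real.pi * ((((a : ZMod p) * (x : ZMod p) + (x : ZMod p)⁻¹).val : ℕ) : ℝ) / (p : ℝ))

/-- The cosine of the angle `θ_p(a)`: `S(a, 1; p) = 2 p ^ (1 / 2) cos θ_p(a)`. -/
noncomputable def cosAngle (a : ℤ) (p : ℕ) : ℝ := kloosterman a p / (2 * Real.sqrt p)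

/-- The primes up to `x`. -/
def primes (x : ℕ) : Finset ℕ := (range (x + 1)).filter Nat.Prime

/-- The weighted sum over the primes `p ≤ x` of `U_1(cos θ_p(a)) = 2 cos θ_p(a)` and `U_2(cos θ_p(a)) = 4 (cos θ_p(a)) ^ 2 - 1`. -/
noncomputable def weylSum (u v : ℕ → ℝ) (x : ℕ) (a : ℤ) : ℝ :=
  ∑ p ∈ primes x, (u p * (2 * cosAngle a p) + v p * (4 * cosAngle a p ^ 2 - 1))

/-- The distribution function of the standard normal law. -/
noncomputable def Phi (y : ℝ) : ℝ := (ProbabilityTheory.gaussianReal 0 1).real (Set.Iic y)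

open Classical in
/-- The proportion of the integers `a` with `M ≤ a < M + N` with the property `P`. -/
noncomputable def proportion (M : ℤ) (N : ℕ) (P : ℤ → Prop) : ℝ := (((Ico M (M + N)).filter P).card : ℝ) / (N : ℝ)

/-- (1) Weil's bound: `|cos θ_p(a)| ≤ 1` for all primes `p` and all integers `a`, so that the angle is defined.

(2) For every `ε > 0` there are positive `V₀`, `C₀` and an integer `K` such that for all weights `u, v` with values in `[-1, 1]`, all
`x` with `V = ∑_{p ≤ x} (u p ^ 2 + v p ^ 2) ≥ V₀`, all integers `M` and all `N ≥ C₀ x ^ K` and all real `y`: the proportion of the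
integers `a` with `M ≤ a < M + N` and
`∑_{p ≤ x} (u p U_1(cos θ_p(a)) + v p U_2(cos θ_p(a))) ≤ y V ^ (1 / 2)` differs from `Φ(y)` by at most `ε`. -/
theorem result :
    (∀ (a : ℤ) (p : ℕ), p.Prime → |cosAngle a p| ≤ 1) ∧
    ∀ ε : ℝ, 0 < ε → ∃ (V₀ C₀ : ℝ) (K : ℕ), 0 < V₀ ∧ 0 < C₀ ∧
      ∀ u v : ℕ → ℝ, (∀ p, |u p| ≤ 1) → (∀ p, |v p| ≤ 1) → ∀ x : ℕ, V₀ ≤ ∑ p ∈ primes x, (u p ^ 2 + v p ^ 2) →
        ∀ (M : ℤ) (N : ℕ), C₀ * (x : ℝ) ^ K ≤ N → ∀ y : ℝ,
          |proportion M N (fun a => weylSum u v x a ≤ y * Real.sqrt (∑ p ∈ primes x, (u p ^ 2 + v p ^ 2))) - Phi y| ≤ ε := by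
  classical
  refine ⟨?_, ?_⟩
  · intro a p hp
    have : Fact p.Prime := ⟨hp⟩
    have h1 := Q282LT.KL.S_weil a p
    have h2 : (0 : ℝ) < Real.sqrt p := Real.sqrt_pos.2 (by exact_mod_cast hp.pos)
    unfold cosAngle
    rw [abs_div, abs_of_pos (by positivity : 0 < 2 * Real.sqrt p), div_le_one (by positivity)]
    exact h1
  · intro ε hε
    obtain ⟨V₀, C₀, K, hV₀, hC₀, h⟩ := Q282LT.KL.kl_law ε hε
    refine ⟨V₀, C₀, K, hV₀, hC₀, ?_⟩
    intro u v hu hv x hV M N hN y
    have h1 := h u v hu hv x hV M N hN y
    unfold proportion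
    have h2 : ((Ico M (M + N)).filter fun a => weylSum u v x a ≤ y * Real.sqrt (∑ p ∈ primes x, (u p ^ 2 + v p ^ 2))) =
        (Ico M (M + N)).filter fun a => Q282LT.KL.total u v x a ≤
          y * Real.sqrt (∑ p ∈ (range (x + 1)).filter Nat.Prime, (u p ^ 2 + v p ^ 2)) := by
      rfl
    rw [h2]
    exact h1

end Pool.Agent.Results.MP_6ea630_nt.GaussianWeylSums
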