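import Pool.Agent.Q69.CR.Kl

/-!
# Moderate and large deviations of the first two Weyl sums of the Kloosterman angles over the primes

Let `θ_p(a)` be the angle of the Kloosterman sum, `S(a, 1; p) = 2 p ^ (1 / 2) cos θ_p(a)`. By the conjecture of Katz the Weyl sums
`∑_{p ≤ x} U_k(cos θ_p(a))`, `k ≥ 1`, are `o(π(x))` for every `a ≠ 0`. For random integers `a` in short intervals and all weights
`u(p), v(p) ∈ [-1, 1]` the sums `∑_{p ≤ x} (u(p) U_1(cos θ_p(a)) + v(p) U_2(cos θ_p(a)))` are asymptotically normal with variance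
`V = ∑_{p ≤ x} (u(p) ^ 2 + v(p) ^ 2)` (`MP_6ea630_nt.GaussianWeylSums`); that theorem says nothing on the integers `a` for which the sum
is larger than any fixed multiple of `V ^ (1 / 2)`. Here the exact exponential rate of these exceptional integers is determined, up to
sums of the maximal order of magnitude: the proportion of the integers `a` in an interval of length at least `x ^ (K y ^ 2)` for which
the sum is at least `y V ^ (1 / 2)` is `exp (-(1 + o(1)) y ^ 2 / 2)`, uniformly for `y → ∞`, `y = o(V ^ (1 / 2))`, and the same holds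
for the other tail. There are no hypotheses, and the constants depend on `ε` only.

Proof. Weil's bound, the first four moments of `S(a, 1; p)` over the residues `a` modulo `p` (library), and moderate deviations for
sums over coprime moduli of functions of the residues of a random point of a box (`Q69.CR`): the exponential moments of the sum are
compared with those of independent variables by means of truncated exponential series, whose terms have only few moduli, so that short
boxes are sufficient; the lower bound uses the tilted measure.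
-/

set_option autoImplicit false

namespace Pool.Agent.Results.MP_6ea630_nt.ModerateDeviations

open Finset

/-- The Kloosterman sum `S(a, 1; p)`. -/
noncomputable def kloosterman (a : ℤ) (p : ℕ) : ℝ :=
  ∑ x ∈ Ico 1 p, Real.cos (2 * Real.pi * ((((a : ZMod p) * (x : ZMod p) + (x : ZMod p)⁻¹).val : ℕ) : ℝ) / (p : ℝ))

/-- The cosine of the angle `θ_p(a)`: `S(a, 1; p) = 2 p ^ (1 / 2) cos θ_p(a)`. -/
noncomputable def cosAngle (a : ℤ) (p : ℕ) : ℝ := kloosterman a p / (2 * Real.sqrt p)

/-- The primes up to `x`. -/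
def primes (x : ℕ) : Finset ℕ := (range (x + 1)).filter Nat.Prime

/-- The weighted sum over the primes `p ≤ x` of `U_1(cos θ_p(a)) = 2 cos θ_p(a)` and `U_2(cos θ_p(a)) = 4 (cos θ_p(a)) ^ 2 - 1`. -/
noncomputable def weylSum (u v : ℕ → ℝ) (x : ℕ) (a : ℤ) : ℝ :=
  ∑ p ∈ primes x, (u p * (2 * cosAngle a p) + v p * (4 * cosAngle a p ^ 2 - 1))

open Classical in
/-- The proportion of the integers `a` with `M ≤ a < M + N` with the property `P`. -/
noncomputable def proportion (M : ℤ) (N : ℕ) (P : ℤ → Prop) : ℝ := (((Ico M (M + N)).filter P).card : ℝ) / (N : ℝ)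

/-- For every `ε > 0` there are positive `K`, `y₀`, `δ` such that for all weights `u, v` with values in `[-1, 1]`, all `x`, all real `y`
with `y₀ ≤ y ≤ δ V ^ (1 / 2)`, where `V = ∑_{p ≤ x} (u p ^ 2 + v p ^ 2)`, all integers `M` and all `N ≥ x ^ (K y ^ 2)`: the proportion
of the integers `a` with `M ≤ a < M + N` and
`∑_{p ≤ x} (u p U_1(cos θ_p(a)) + v p U_2(cos θ_p(a))) ≥ y V ^ (1 / 2)` lies between `exp (-(1 + ε) y ^ 2 / 2)` and
`exp (-(1 - ε) y ^ 2 / 2)`, and so does the proportion of those with sum `≤ -y V ^ (1 / 2)`. -/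
theorem result (ε : ℝ) (hε : 0 < ε) : ∃ K y₀ δ : ℝ, 0 < K ∧ 0 < y₀ ∧ 0 < δ ∧
    ∀ u v : ℕ → ℝ, (∀ p, |u p| ≤ 1) → (∀ p, |v p| ≤ 1) → ∀ (x : ℕ) (V : ℝ), V = ∑ p ∈ primes x, (u p ^ 2 + v p ^ 2) →
      ∀ y : ℝ, y₀ ≤ y → y ≤ δ * Real.sqrt V → ∀ (M : ℤ) (N : ℕ), (x : ℝ) ^ (K * y ^ 2) ≤ N →
        (Real.exp (-((1 + ε) * (y ^ 2 / 2))) ≤ proportion M N (fun a => y * Real.sqrt V ≤ weylSum u v x a) ∧
          proportion M N (fun a => y * Real.sqrt V ≤ weylSum u v x a) ≤ Real.exp (-((1 - ε) * (y ^ 2 / 2)))) ∧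
        (Real.exp (-((1 + ε) * (y ^ 2 / 2))) ≤ proportion M N (fun a => weylSum u v x a ≤ -(y * Real.sqrt V)) ∧
          proportion M N (fun a => weylSum u v x a ≤ -(y * Real.sqrt V)) ≤ Real.exp (-((1 - ε) * (y ^ 2 / 2)))) := by
  obtain ⟨K, y₀, δ, hK, hy₀, hδ, h⟩ := Q69CR.kl_mdp ε hε
  refine ⟨K, y₀, δ, hK, by linarith, hδ, ?_⟩
  intro u v hu hv x V hV y hy hyV M N hN
  have h1 := h u v hu hv x V hV y hy hyV M N hN
  have h2 := h (fun p => -u p) (fun p => -v p) (fun p => by rw [abs_neg]; exact hu p) (fun p => by rw [abs_neg]; exact hv p) x V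
    (by
      rw [hV]
      refine sum_congr rfl fun p _ => ?_
      ring) y hy hyV M N hN
  have h3 : Q69CR.kp u v x M N (y * Real.sqrt V) = proportion M N (fun a => y * Real.sqrt V ≤ weylSum u v x a) := rfl
  have h5 : ∀ a, Q282LT.KL.total (fun p => -u p) (fun p => -v p) x a = -weylSum u v x a := by
    intro a
    unfold Q282LT.KL.total weylSum
    rw [← sum_neg_distrib]
    refine sum_congr rfl fun p _ => ?_
    show -u p * (2 * Q282LT.KL.cosAngle a p) + -v p * (4 * Q282LT.KL.cosAngle a p ^ 2 - 1) =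
      -(u p * (2 * Q282LT.KL.cosAngle a p) + v p * (4 * Q282LT.KL.cosAngle a p ^ 2 - 1))
    ring
  have h4 : Q69CR.kp (fun p => -u p) (fun p => -v p) x M N (y * Real.sqrt V) =
      proportion M N (fun a => weylSum u v x a ≤ -(y * Real.sqrt V)) := by
    unfold Q69CR.kp proportion
    refine congrArg (fun k : ℕ => (k : ℝ) / (N : ℝ)) (congrArg Finset.card (filter_congr fun a _ => ?_))
    rw [h5 a]
    exact le_neg
  rw [h3] at h1
  rw [h4] at h2
  exact ⟨h1, h2⟩

end Pool.Agent.Results.MP_6ea630_nt.ModerateDeviations
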