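import Pool.Agent.Q197.PS.I

/-! # Kloosterman angles at the primes of random unions of reduced residue classes

For a set `T` of primes, a real `m` in `[0, 1]` and a set `A` of reduced residues modulo `P` consider
`dev T m P A N`, the number of the `p ≤ N` in `T` with residue in `A`, minus `m` times the number of all
primes `p ≤ N` with residue in `A`, divided by `π(N)`. For `T` the primes `p` with
`θ_p(a) ∈ [α, β]` and `m` the Sato-Tate measure of `[α, β]` the law of the problem for the primes of `A`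
says that this tends to zero. -/

set_option autoImplicit false

open Finset Filter Topology

namespace Pool.Agent.Results.MP_6ea630_nt.UnionsOfReducedClasses

/-- The residues `a < P` coprime to `P`; there are `φ(P)` of them. -/
def reduced (P : ℕ) : Finset ℕ := (range P).filter (fun a => P.Coprime a)

open Classical in
/-- `1 / π(N)` times the number of the primes `p ≤ N` with `p mod P ∈ A` which lie in `T`, minus `m` times
the number of all primes `p ≤ N` with `p mod P ∈ A`. -/
noncomputable def dev (T : Set ℕ) (m : ℝ) (P : ℕ) (A : Finset ℕ) (N : ℕ) : ℝ :=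
  ((((Icc 1 N).filter (fun p => p.Prime ∧ p % P ∈ A ∧ p ∈ T)).card : ℝ) -
    m * (((Icc 1 N).filter (fun p => p.Prime ∧ p % P ∈ A)).card : ℝ)) / (Nat.primeCounting N : ℝ)

open Classical in
/-- The same for all primes `p ≤ N`. -/
noncomputable def devAll (T : Set ℕ) (m : ℝ) (N : ℕ) : ℝ :=
  ((((Icc 1 N).filter (fun p => p.Prime ∧ p ∈ T)).card : ℝ) -
    m * (((Icc 1 N).filter (fun p => p.Prime)).card : ℝ)) / (Nat.primeCounting N : ℝ)

/-- The Kloosterman angle `θ_p(a)`, as in the problem. -/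
noncomputable def angle (a : ℤ) (p : ℕ) : ℝ :=
  Real.arccos ((∑ x ∈ Ico 1 p, Real.cos (2 * Real.pi *
    ((((a : ZMod p) * (x : ZMod p) + (x : ZMod p)⁻¹).val : ℕ) : ℝ) / (p : ℝ))) / (2 * Real.sqrt (p : ℝ)))

/-- The integers `p` coprime to `a` with `θ_p(a) ∈ [α, β]`. -/
def kloo (a : ℤ) (α β : ℝ) : Set ℕ := {p | Nat.Coprime p a.natAbs ∧ α ≤ angle a p ∧ angle a p ≤ β}

/-- The Sato-Tate measure of `[α, β]`. -/
noncomputable def satoTate (α β : ℝ) : ℝ := (2 / Real.pi) * ∫ u in α..β, Real.sin u ^ 2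

/-- The Sato-Tate law for the angles `θ_p(a)` at the primes `p` with `p mod P ∈ A`. -/
def Law (a : ℤ) (P : ℕ) (A : Finset ℕ) : Prop :=
  ∀ α β : ℝ, 0 ≤ α → α ≤ β → β ≤ Real.pi → Tendsto (dev (kloo a α β) (satoTate α β) P A) atTop (𝓝 0)

open Classical in
/-- The number of the sets `A` of reduced residues modulo `P` for which the law holds. -/
noncomputable def good (a : ℤ) (P : ℕ) : ℕ := ((reduced P).powerset.filter (fun A => Law a P A)).card

open Classical in
/-- the test function -/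
noncomputable def test (T : Set ℕ) (m : ℝ) (n : ℕ) : ℝ := (if n ∈ T then 1 else 0) - m

lemma test_le {T : Set ℕ} {m : ℝ} (h0 : 0 ≤ m) (h1 : m ≤ 1) (n : ℕ) : |test T m n| ≤ 1 := by
  unfold test
  split_ifs <;> rw [abs_le] <;> constructor <;> linarith

lemma dev_eq (T : Set ℕ) (m : ℝ) (P : ℕ) (A : Finset ℕ) (N : ℕ) :
    dev T m P A N = Q197.PS.mI (test T m) P A N := by
  classical
  unfold dev Q197.PS.mI test
  congr 1
  rw [sum_sub_distrib, sum_const, nsmul_eq_mul, ← sum_filter, filter_filter, sum_const, nsmul_eq_mul, mul_one,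
    mul_comm m]
  congr 3
  ext p
  simp only [mem_filter, and_assoc]

lemma devAll_eq (T : Set ℕ) (m : ℝ) (N : ℕ) : devAll T m N = dev T m 1 {0} N := by
  classical
  unfold dev devAll
  simp only [mem_singleton, Nat.mod_one, true_and, and_true]

lemma st_mem {α β : ℝ} (h0 : 0 ≤ α) (h1 : α ≤ β) (h2 : β ≤ Real.pi) :
    0 ≤ satoTate α β ∧ satoTate α β ≤ 1 := by
  have hpi := Real.pi_pos
  have hint : ∀ x y : ℝ, IntervalIntegrable (fun u => Real.sin u ^ 2) MeasureTheory.volume x y :=
    fun x y => (Real.continuous_sin.pow 2).intervalIntegrable _ _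
  unfold satoTate
  constructor
  · apply mul_nonneg (by positivity)
    exact intervalIntegral.integral_nonneg h1 fun u _ => by positivity
  · have h3 : ∫ u in α..β, Real.sin u ^ 2 ≤ ∫ u in (0 : ℝ)..Real.pi, Real.sin u ^ 2 := by
      have h4 : ∫ u in (0 : ℝ)..Real.pi, Real.sin u ^ 2 =
          (∫ u in (0 : ℝ)..α, Real.sin u ^ 2) + (∫ u in α..β, Real.sin u ^ 2) +
            ∫ u in β..Real.pi, Real.sin u ^ 2 := by
        rw [intervalIntegral.integral_add_adjacent_intervals (hint _ _) (hint _ _),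
          intervalIntegral.integral_add_adjacent_intervals (hint _ _) (hint _ _)]
      have h5 : 0 ≤ ∫ u in (0 : ℝ)..α, Real.sin u ^ 2 :=
        intervalIntegral.integral_nonneg h0 fun u _ => by positivity
      have h6 : 0 ≤ ∫ u in β..Real.pi, Real.sin u ^ 2 :=
        intervalIntegral.integral_nonneg h2 fun u _ => by positivity
      linarith
    have h7 : ∫ u in (0 : ℝ)..Real.pi, Real.sin u ^ 2 = Real.pi / 2 := by
      rw [integral_sin_sq]
      simp
    rw [h7] at h3
    calc 2 / Real.pi * ∫ u in α..β, Real.sin u ^ 2 ≤ 2 / Real.pi * (Real.pi / 2) := by gcongr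
      _ = 1 := by field_simp

open Classical in
theorem result :
    (∃ C : ℝ, 1 ≤ C ∧
      (∀ (T : Set ℕ) (m : ℝ), 0 ≤ m → m ≤ 1 → ∀ c : ℝ, 0 < c →
        ((∃ᶠ N in atTop, c ≤ |devAll T m N|) → ∀ P : ℕ, 0 < P →
          (((reduced P).powerset.filter (fun A => Tendsto (dev T m P A) atTop (𝓝 0))).card : ℝ) ≤
            C * (1 + 1 / c) * 2 ^ P.totient / √P.totient) ∧
        (∀ q j : ℕ, (∃ᶠ N in atTop, c ≤ |dev T m q {j} N|) → ∀ P : ℕ, 0 < P → q ∣ P →
          (((reduced P).powerset.filter (fun A => Tendsto (dev T m P A) atTop (𝓝 0))).card : ℝ) ≤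
            C * (1 + 1 / c) * 2 ^ P.totient / √P.totient)) ∧
      (∀ P : ℕ, 0 < P → ∀ᶠ N : ℕ in atTop, ∀ (T : Set ℕ) (m : ℝ), 0 ≤ m → m ≤ 1 → ∀ t : ℝ, 0 < t →
        (((reduced P).powerset.filter (fun A =>
          t * C / √P.totient ≤ |dev T m P A N - devAll T m N / 2|)).card : ℝ) ≤ 2 ^ P.totient / t ^ 2)) ∧
    (∀ a : ℤ, (∀ q : ℕ, 0 < q → ∀ j ∈ reduced q, Law a q {j}) ↔
      ∀ q : ℕ, 0 < q → ∀ K : ℝ, ∃ P : ℕ, 0 < P ∧ q ∣ P ∧
        K * 2 ^ P.totient / √P.totient ≤ good a P) ∧
    ((∀ a : ℤ, a ≠ 0 → ∀ K : ℝ, ∃ P : ℕ, 0 < P ∧ K * 2 ^ P.totient / √P.totient ≤ good a P) →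
      ∀ a : ℤ, a ≠ 0 → ∀ α β : ℝ, 0 ≤ α → α ≤ β → β ≤ Real.pi →
        Tendsto (fun N : ℕ => (({p : ℕ | p ≤ N ∧ p.Prime ∧ p ∈ kloo a α β} : Set ℕ).ncard : ℝ) /
          (Nat.primeCounting N : ℝ)) atTop (𝓝 (satoTate α β))) := by
  obtain ⟨C1, hC1, h1⟩ := Q197.PS.few_pi
  obtain ⟨C2, hC2, h2⟩ := Q197.PS.typical_pi
  have hfew : ∀ (T : Set ℕ) (m : ℝ), 0 ≤ m → m ≤ 1 → ∀ c : ℝ, 0 < c → ∀ (q : ℕ) (B : Finset ℕ),
      (∃ᶠ N in atTop, c ≤ |dev T m q B N|) → ∀ P : ℕ, 0 < P → q ∣ P →
      (((reduced P).powerset.filter (fun A => Tendsto (dev T m P A) atTop (𝓝 0))).card : ℝ) ≤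
        C1 * (1 + 1 / c) * 2 ^ P.totient / √P.totient := by
    intro T m h0 h1' c hc q B hfr P hP hd
    have h3 := h1 (test T m) (test_le h0 h1') c hc q B (hfr.mono fun N hN => by rw [dev_eq] at hN; exact hN)
      P hP hd (fun _ => 0)
    simp only [sub_zero] at h3
    have h4 : ∀ A, dev T m P A = fun N => Q197.PS.mI (test T m) P A N := fun A => funext fun N => dev_eq T m P A N
    simp only [h4]
    exact h3
  have hmax : ∀ (T : Set ℕ) (m : ℝ), 0 ≤ m → m ≤ 1 → ∀ c : ℝ, 0 < c → ∀ (q : ℕ) (B : Finset ℕ),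
      (∃ᶠ N in atTop, c ≤ |dev T m q B N|) → ∀ P : ℕ, 0 < P → q ∣ P →
      (((reduced P).powerset.filter (fun A => Tendsto (dev T m P A) atTop (𝓝 0))).card : ℝ) ≤
        max C1 C2 * (1 + 1 / c) * 2 ^ P.totient / √P.totient := by
    intro T m h0 h1' c hc q B hfr P hP hd
    refine (hfew T m h0 h1' c hc q B hfr P hP hd).trans ?_
    have hc1 : 0 < 1 + 1 / c := by positivity
    have h3 := le_max_left C1 C2
    gcongr
  have hgood : ∀ (a : ℤ) (P : ℕ) (α β : ℝ), 0 ≤ α → α ≤ β → β ≤ Real.pi →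
      (good a P : ℝ) ≤ (((reduced P).powerset.filter (fun A =>
        Tendsto (dev (kloo a α β) (satoTate α β) P A) atTop (𝓝 0))).card : ℝ) := by
    intro a P α β h3 h4 h5
    unfold good
    have hsub : (reduced P).powerset.filter (fun A => Law a P A) ⊆ (reduced P).powerset.filter (fun A =>
        Tendsto (dev (kloo a α β) (satoTate α β) P A) atTop (𝓝 0)) := by
      intro A hA
      rw [mem_filter] at hA ⊢
      exact ⟨hA.1, hA.2 α β h3 h4 h5⟩
    exact_mod_cast card_le_card hsub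
  have hcontra : ∀ (K c : ℝ) (P : ℕ) (x : ℝ), 0 < P → 0 < c → 2 * (C1 * (1 + 1 / c)) = K →
      K * 2 ^ P.totient / √P.totient ≤ x → x ≤ C1 * (1 + 1 / c) * 2 ^ P.totient / √P.totient → False := by
    intro K c P x hP hc hK h3 h4
    have hpos : (0 : ℝ) < P.totient := by exact_mod_cast Nat.totient_pos.2 hP
    have h5 := h3.trans h4
    rw [div_le_div_iff_of_pos_right (Real.sqrt_pos.2 hpos), ← hK] at h5
    have h6 : (0 : ℝ) < C1 * (1 + 1 / c) * 2 ^ P.totient := by positivity
    linarith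
  refine ⟨⟨max C1 C2, hC1.trans (le_max_left _ _), ?_, ?_⟩, ?_, ?_⟩
  · intro T m h0 h1' c hc
    constructor
    · intro hfr P hP
      refine hmax T m h0 h1' c hc 1 {0} ?_ P hP (one_dvd P)
      simp only [devAll_eq] at hfr
      exact hfr
    · intro q j hfr P hP hd
      exact hmax T m h0 h1' c hc q {j} hfr P hP hd
  · intro P hP
    filter_upwards [h2 P hP] with N hN T m h0 h1' t ht
    refine le_trans ?_ (hN (test T m) (test_le h0 h1') t ht)
    have hsub : (reduced P).powerset.filter (fun A =>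
        t * max C1 C2 / √P.totient ≤ |dev T m P A N - devAll T m N / 2|) ⊆
        (Q197.PS.red P).powerset.filter (fun A => t * C2 / √P.totient ≤
          |Q197.PS.mI (test T m) P A N - Q197.PS.mI (test T m) 1 {0} N / 2|) := by
      intro A hA
      rw [mem_filter] at hA ⊢
      refine ⟨hA.1, le_trans ?_ (le_trans hA.2 (le_of_eq ?_))⟩
      · have h3 := le_max_right C1 C2
        gcongr
      · rw [devAll_eq, dev_eq, dev_eq]
    exact_mod_cast card_le_card hsub
  · intro a
    constructor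
    · intro h q hq K
      obtain ⟨P, hP, hd, hK⟩ := Q197.PS.totient_large q hq K
      refine ⟨P, hP, hd, hK.trans (le_of_eq ?_)⟩
      have h3 : good a P = 2 ^ P.totient := by
        unfold good
        rw [filter_eq_self.2, card_powerset]
        · rfl
        · intro A hA
          rw [mem_powerset] at hA
          intro α β h3 h4 h5
          have h6 : dev (kloo a α β) (satoTate α β) P A =
              fun N => ∑ j ∈ A, dev (kloo a α β) (satoTate α β) P {j} N := by
            funext N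
            rw [dev_eq, Q197.PS.mI_eq]
            refine sum_congr rfl fun j _ => ?_
            rw [dev_eq, Q197.PS.mI_eq, sum_singleton]
          rw [h6]
          have h7 : (0 : ℝ) = ∑ j ∈ A, (0 : ℝ) := by simp
          rw [h7]
          exact tendsto_finsetSum _ fun j hj => h P hP j (hA hj) α β h3 h4 h5
      rw [h3]
      push_cast
      ring
    · intro h q hq j hj α β h3 h4 h5
      by_contra hcon
      obtain ⟨c, hc, hfr⟩ := Q197.PS.not_tendsto_gen hcon
      obtain ⟨P, hP, hd, h6⟩ := h q hq (2 * (C1 * (1 + 1 / c)))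
      exact hcontra _ c P _ hP hc rfl (h6.trans (hgood a P α β h3 h4 h5))
        (hfew _ _ (st_mem h3 h4 h5).1 (st_mem h3 h4 h5).2 c hc q {j} hfr P hP hd)
  · intro h a ha α β h3 h4 h5
    have hlim : Tendsto (dev (kloo a α β) (satoTate α β) 1 {0}) atTop (𝓝 0) := by
      by_contra hcon
      obtain ⟨c, hc, hfr⟩ := Q197.PS.not_tendsto_gen hcon
      obtain ⟨P, hP, h6⟩ := h a ha (2 * (C1 * (1 + 1 / c)))
      exact hcontra _ c P _ hP hc rfl (h6.trans (hgood a P α β h3 h4 h5))
        (hfew _ _ (st_mem h3 h4 h5).1 (st_mem h3 h4 h5).2 c hc 1 {0} hfr P hP (one_dvd P))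
    have h7 := hlim.add_const (satoTate α β)
    rw [zero_add] at h7
    refine h7.congr' ?_
    filter_upwards [eventually_ge_atTop 2] with N hN
    have hcard : ((Icc 1 N).filter (fun p => p.Prime)).card = Nat.primeCounting N := by
      rw [Nat.primeCounting, Nat.primeCounting', Nat.count_eq_card_filter_range]
      congr 1
      ext p
      simp only [mem_filter, mem_Icc, mem_range]
      constructor
      · rintro ⟨⟨_, h8⟩, h9⟩
        exact ⟨by omega, h9⟩
      · rintro ⟨h8, h9⟩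
        exact ⟨⟨h9.one_lt.le, by omega⟩, h9⟩
    have hpc : (0 : ℝ) < Nat.primeCounting N := by
      have h8 : 0 < Nat.primeCounting N := by
        rw [← hcard]
        exact card_pos.2 ⟨2, mem_filter.2 ⟨mem_Icc.2 ⟨by omega, hN⟩, Nat.prime_two⟩⟩
      exact_mod_cast h8
    have hset : ({p : ℕ | p ≤ N ∧ p.Prime ∧ p ∈ kloo a α β} : Set ℕ).ncard =
        ((Icc 1 N).filter (fun p => p.Prime ∧ p ∈ kloo a α β)).card := by
      rw [← Set.ncard_coe_finset]
      congr 1
      ext p
      simp only [Set.mem_ofPred_eq, mem_coe, mem_filter, mem_Icc]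
      constructor
      · rintro ⟨h8, h9, h10⟩
        exact ⟨⟨h9.one_lt.le, h8⟩, h9, h10⟩
      · rintro ⟨⟨_, h8⟩, h9, h10⟩
        exact ⟨h8, h9, h10⟩
    rw [hset, ← devAll_eq]
    unfold devAll
    rw [hcard]
    field_simp
    ring

end Pool.Agent.Results.MP_6ea630_nt.UnionsOfReducedClasses
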